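import Pool.Agent.Q240.KS.Stm2

/-!
# Project KS, job CLS: the classification of the frequencies
-/

set_option autoImplicit false

namespace Pool.Agent.Q222.KS

open Finset Pool.Agent.H376R2.MR Pool.Agent.Q240.KS

theorem ed_le (d : Fin 10 → ℕ) : |ed d| ≤ 31 := by
  unfold ed
  refine (Finset.abs_sum_le_sum_abs _ _).trans ?_
  have h : ∀ j ∈ Icc 1 5, |(-1 : ℤ) ^ (j + 1) * ((Nat.choose 5 j : ℕ) : ℤ) *
      (if ∀ i : Fin 10, ((j ≤ (i : ℕ) ∧ (i : ℕ) < 5) ∨ (4 + j ≤ (i : ℕ) ∧ (i : ℕ) < 9)) → d i = 0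
        then 1 else 0)| ≤ ((Nat.choose 5 j : ℕ) : ℤ) := by
    intro j _
    rw [abs_mul, abs_mul, abs_pow, abs_neg, abs_one, one_pow, one_mul, Nat.abs_cast]
    split_ifs
    · simp
    · simp
  refine (Finset.sum_le_sum h).trans ?_
  decide

theorem ed_norm (d : Fin 10 → ℕ) : ‖(ed d : ℂ)‖ ≤ 31 := by
  have h := ed_le d
  have h2 : ‖(ed d : ℂ)‖ = |(ed d : ℝ)| := by
    rw [← Complex.ofReal_intCast, Complex.norm_real, Real.norm_eq_abs]
  rw [h2]
  have h3 : ((|ed d| : ℤ) : ℝ) ≤ 31 := by exact_mod_cast h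
  rwa [Int.cast_abs] at h3

theorem cg_le (G : ℕ) (s x : ℝ) : cg G s x ≤ G := by
  unfold cg
  refine (Finset.card_filter_le _ _).trans ?_
  simp

/-- job CLS -/
theorem cls : S_CLS := by
  intro Y K₀ K G s u ρ m hK₀ hρ h
  by_contra hcon
  push Not at hcon
  obtain ⟨e, he⟩ : ∃ e : ℤ → ℂ, e = fun k => ((m k : ℝ) : ℂ) *
    Complex.exp (((k : ℝ) * u : ℝ) * Complex.I) := ⟨_, rfl⟩
  have hrew : ∑ k ∈ (FK K).filter (fun k => (K₀ : ℤ) ≤ |k|), ((m k : ℝ) : ℂ) *
      Complex.exp (((k : ℝ) * u : ℝ) * Complex.I) * AA (zY Y) Y k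
      = ∑ d ∈ DY Y, (ed d : ℂ) *
        ∑ k ∈ (FK K).filter (fun k => (K₀ : ℤ) ≤ |k|), e k * EE (zY Y) d k := by
    rw [he]
    unfold AA
    simp only [Finset.mul_sum]
    rw [Finset.sum_comm]
    refine Finset.sum_congr rfl (fun d _ => Finset.sum_congr rfl (fun k _ => ?_))
    ring
  rw [hrew] at h
  have hne : (DY Y).Nonempty := by
    by_contra h0
    rw [Finset.not_nonempty_iff_eq_empty] at h0
    rw [h0, Finset.sum_empty, norm_zero] at h
    linarith
  have hDpos : (0 : ℝ) < (DY Y).card := by exact_mod_cast hne.card_pos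
  -- the decomposition for a fixed tuple
  have hdec : ∀ d, ∑ k ∈ (FK K).filter (fun k => (K₀ : ℤ) ≤ |k|), e k * EE (zY Y) d k
      = ∑ p ∈ (range (Nat.log 2 K + 1)) ×ˢ (Fintype.piFinset (fun _ : Fin 10 => range (G + 1))),
        ∑ k ∈ LS Y G s K₀ K p.1 d p.2, e k * EE (zY Y) d k := by
    intro d
    rw [← Finset.sum_fiberwise_of_maps_to (s := (FK K).filter (fun k => (K₀ : ℤ) ≤ |k|))
      (t := (range (Nat.log 2 K + 1)) ×ˢ (Fintype.piFinset (fun _ : Fin 10 => range (G + 1))))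
      (g := fun k : ℤ => (Nat.log 2 k.natAbs, fun i : Fin 10 => cg G s ‖PF (zY Y) (ty i) (d i) k‖))]
    · refine Finset.sum_congr rfl (fun p hp => ?_)
      refine Finset.sum_congr ?_ (fun _ _ => rfl)
      ext k
      simp only [LS, Finset.mem_filter, FK, Finset.mem_Ioo]
      have hiff : (K₀ : ℤ) ≤ |k| → (Nat.log 2 k.natAbs = p.1 ↔
          (2 : ℤ) ^ p.1 ≤ |k| ∧ |k| < (2 : ℤ) ^ (p.1 + 1)) := by
        intro hk
        have hk0 : k.natAbs ≠ 0 := by
          intro h0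
          rw [Int.natAbs_eq_zero] at h0
          rw [h0, abs_zero] at hk
          omega
        rw [Nat.log_eq_iff (Or.inr ⟨by norm_num, hk0⟩), Int.abs_eq_natAbs]
        constructor
        · rintro ⟨h1, h2⟩
          exact ⟨by exact_mod_cast h1, by exact_mod_cast h2⟩
        · rintro ⟨h1, h2⟩
          exact ⟨by exact_mod_cast h1, by exact_mod_cast h2⟩
      constructor
      · rintro ⟨⟨h1, h2⟩, h3⟩
        have h4 : Nat.log 2 k.natAbs = p.1 := congrArg Prod.fst h3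
        have h5 : (fun i : Fin 10 => cg G s ‖PF (zY Y) (ty i) (d i) k‖) = p.2 :=
          congrArg Prod.snd h3
        exact ⟨h1, h2, ((hiff h2).mp h4).1, ((hiff h2).mp h4).2, fun i => congrFun h5 i⟩
      · rintro ⟨h1, h2, h3, h4, h5⟩
        refine ⟨⟨h1, h2⟩, ?_⟩
        exact Prod.ext ((hiff h2).mpr ⟨h3, h4⟩) (funext h5)
    · intro k hk
      rw [Finset.mem_filter, FK, Finset.mem_Ioo] at hk
      rw [Finset.mem_product]
      refine ⟨?_, ?_⟩
      · rw [Finset.mem_range]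
        have h1 : k.natAbs ≤ K := by omega
        have h2 := Nat.log_mono_right (b := 2) h1
        show Nat.log 2 k.natAbs < _
        omega
      · rw [Fintype.mem_piFinset]
        intro i
        rw [Finset.mem_range]
        have := cg_le G s ‖PF (zY Y) (ty i) (d i) k‖
        show cg G s ‖PF (zY Y) (ty i) (d i) k‖ < _
        omega
  set δ : ℝ := ρ / (31 * (DY Y).card * (Nat.log 2 K + 1) * (G + 1) ^ 10) with hδ
  have hS : ∀ d ∈ DY Y, ‖∑ k ∈ (FK K).filter (fun k => (K₀ : ℤ) ≤ |k|), e k * EE (zY Y) d k‖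
      < (Nat.log 2 K + 1) * (G + 1) ^ 10 * δ := by
    intro d hd
    rw [hdec d]
    refine (norm_sum_le _ _).trans_lt ?_
    have h1 : ∀ p ∈ (range (Nat.log 2 K + 1)) ×ˢ
        (Fintype.piFinset (fun _ : Fin 10 => range (G + 1))),
        ‖∑ k ∈ LS Y G s K₀ K p.1 d p.2, e k * EE (zY Y) d k‖ < δ := by
      intro p hp
      rw [Finset.mem_product] at hp
      have h2 := hcon d hd p.1 hp.1 p.2 hp.2
      rw [he]
      exact h2
    refine (Finset.sum_lt_sum_of_nonempty ?_ h1).trans_le ?_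
    · refine ⟨(0, fun _ => 0), ?_⟩
      rw [Finset.mem_product]
      refine ⟨by simp, ?_⟩
      rw [Fintype.mem_piFinset]
      intro i
      simp
    · rw [Finset.sum_const, Finset.card_product, Finset.card_range, Fintype.card_piFinset]
      simp
  have hfin : ‖∑ d ∈ DY Y, (ed d : ℂ) *
      ∑ k ∈ (FK K).filter (fun k => (K₀ : ℤ) ≤ |k|), e k * EE (zY Y) d k‖ < ρ := by
    refine (norm_sum_le _ _).trans_lt ?_
    have h1 : ∀ d ∈ DY Y, ‖(ed d : ℂ) *
        ∑ k ∈ (FK K).filter (fun k => (K₀ : ℤ) ≤ |k|), e k * EE (zY Y) d k‖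
        < 31 * ((Nat.log 2 K + 1) * (G + 1) ^ 10 * δ) := by
      intro d hd
      rw [norm_mul]
      refine lt_of_le_of_lt (mul_le_mul_of_nonneg_right (ed_norm d) (norm_nonneg _)) ?_
      exact mul_lt_mul_of_pos_left (hS d hd) (by norm_num)
    refine (Finset.sum_lt_sum_of_nonempty hne h1).trans_le ?_
    rw [Finset.sum_const, nsmul_eq_mul, hδ]
    have h2 : (0 : ℝ) < (Nat.log 2 K + 1 : ℝ) := by positivity
    have h3 : (0 : ℝ) < ((G : ℝ) + 1) ^ 10 := by positivity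
    apply le_of_eq
    field_simp
  linarith

end Pool.Agent.Q222.KS
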