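import Mathlib
import Pool.Agent.Q264.KS.Stm

/-!
# Symmetry of the functionals of the isometric reflections
-/

set_option autoImplicit false

namespace Pool.Agent.Q222.KS

open Module
open Pool.Agent.Q264.KS

universe u

/-- the functional of a reflection is bounded by the norm -/
lemma fbound {X : Type u} [NormedAddCommGroup X] [NormedSpace ℝ X] (g : X →ₗ[ℝ] ℝ) (v : X)
    (hv : ‖v‖ = 1) (h : ∀ z, ‖z - (2 * g z) • v‖ = ‖z‖) (z : X) : g z ≤ ‖z‖ := by
  have h1 : (2 * g z) • v = z - (z - (2 * g z) • v) := by abel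
  have h2 : ‖(2 * g z) • v‖ ≤ ‖z‖ + ‖z‖ := by
    rw [h1]
    refine (norm_sub_le _ _).trans ?_
    rw [h z]
  rw [norm_smul, hv, mul_one, Real.norm_eq_abs] at h2
  have h3 := le_abs_self (2 * g z)
  linarith

theorem t_FINC : S_FINC.{u} := by
  intro hA hB X _ _ G hG1 hG2 x y hx hy
  have hR : ∀ v : X, ‖v‖ = 1 → Refl v := fun v hv => ⟨G v, hG1 v hv, hG2 v hv⟩
  by_cases hxy : x = y
  · rw [hxy]
  have hconv : ∀ a b : X, ‖a‖ = 1 → ‖b‖ = 1 → ∀ l : ℝ, 0 < l → l < 1 →
      ‖(1 - l) • a + l • b‖ = 1 → a = b := hB X hR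
  set d : X := x - y with hd
  have hd0 : d ≠ 0 := sub_ne_zero.mpr hxy
  have hn : 0 < ‖d‖ := norm_pos_iff.mpr hd0
  set w : X := ‖d‖⁻¹ • d with hw
  have hw1 : ‖w‖ = 1 := by
    rw [hw, norm_smul, norm_inv, norm_norm]
    exact inv_mul_cancel₀ hn.ne'
  let R : X →ₗ[ℝ] X := LinearMap.id - (2 : ℝ) • (G w).smulRight w
  have hRz : ∀ z, R z = z - (2 * G w z) • w := by
    intro z
    show z - (2 : ℝ) • ((G w z) • w) = _
    rw [smul_smul]
  have hGR : ∀ z, G w (R z) = - G w z := by
    intro z
    rw [hRz, map_sub, map_smul, hG1 w hw1, smul_eq_mul]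
    ring
  have hRR : ∀ z, R (R z) = z := by
    intro z
    rw [hRz (R z), hGR, hRz z]
    module
  have hRn : ∀ z, ‖R z‖ = ‖z‖ := by
    intro z
    rw [hRz]
    exact hG2 w hw1 z
  set l : ℝ := 2 * G w x * ‖d‖⁻¹ with hl
  have hRx : R x = (1 - l) • x + l • y := by
    rw [hRz, hw, smul_smul, ← hl, hd]
    module
  have hRx1 : ‖(1 - l) • x + l • y‖ = 1 := by rw [← hRx, hRn, hx]
  have hl01 : l = 0 ∨ l = 1 := by
    by_contra hcon
    push Not at hcon
    obtain ⟨h0, h1⟩ := hcon
    rcases lt_trichotomy l 0 with hlt | heq | hgt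
    · -- `x` is between `y` and the image
      have hp : 0 < 1 - l := by linarith
      have h2 := hconv y ((1 - l) • x + l • y) hy hRx1 (1 - l)⁻¹ (inv_pos.mpr hp)
        (inv_lt_one_of_one_lt₀ (by linarith)) (by
          have : (1 - (1 - l)⁻¹) • y + (1 - l)⁻¹ • ((1 - l) • x + l • y) = x := by
            have e1 : (1 - l)⁻¹ * (1 - l) = 1 := inv_mul_cancel₀ hp.ne'
            have e2 : (1 - (1 - l)⁻¹) + (1 - l)⁻¹ * l = 0 := by
              have : (1 - (1 - l)⁻¹) + (1 - l)⁻¹ * l = 1 - (1 - l)⁻¹ * (1 - l) := by ring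
              rw [this, e1, sub_self]
            rw [smul_add, smul_smul, smul_smul, e1, one_smul, add_comm x, ← add_assoc, ← add_smul,
              e2, zero_smul, zero_add]
          rw [this, hx])
      have h3 : (1 - l) • (x - y) = 0 := by
        have : (1 - l) • (x - y) = ((1 - l) • x + l • y) - y := by module
        rw [this, ← h2, sub_self]
      rcases smul_eq_zero.mp h3 with h4 | h4
      · exact hp.ne' h4
      · exact hd0 h4
    · exact h0 heq
    · rcases lt_trichotomy l 1 with hlt | heq | hgt1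
      · exact hxy (hconv x y hx hy l hgt hlt hRx1)
      · exact h1 heq
      · -- `y` is between `x` and the image
        have h2 := hconv x ((1 - l) • x + l • y) hx hRx1 l⁻¹ (inv_pos.mpr hgt)
          (inv_lt_one_of_one_lt₀ hgt1) (by
            have : (1 - l⁻¹) • x + l⁻¹ • ((1 - l) • x + l • y) = y := by
              have e1 : l⁻¹ * l = 1 := inv_mul_cancel₀ hgt.ne'
              have e2 : (1 - l⁻¹) + l⁻¹ * (1 - l) = 0 := by
                have : (1 - l⁻¹) + l⁻¹ * (1 - l) = 1 - l⁻¹ * l := by ring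
                rw [this, e1, sub_self]
              rw [smul_add, smul_smul, smul_smul, e1, one_smul, ← add_assoc, ← add_smul,
                e2, zero_smul, zero_add]
            rw [this, hy])
        have h3 : l • (x - y) = 0 := by
          have : l • (x - y) = x - ((1 - l) • x + l • y) := by module
          rw [this, ← h2, sub_self]
        rcases smul_eq_zero.mp h3 with h4 | h4
        · exact hgt.ne' h4
        · exact hd0 h4
  rcases hl01 with h0 | h1
  · exfalso
    have hRxx : R x = x := by rw [hRx, h0]; module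
    have hAx := hA X R hRR hRn x hx (G x) (G x) (hG1 x hx) (hG2 x hx)
      (by rw [hRxx]; exact hG1 x hx) (by rw [hRxx]; exact hG2 x hx)
    have h2 := hAx w
    have h3 : R w = -w := by
      rw [hRz, hG1 w hw1]
      module
    rw [h3, map_neg] at h2
    have h4 : G x w = 0 := by linarith
    have h5 : G x d = 0 := by
      rw [hw, map_smul, smul_eq_mul] at h4
      rcases mul_eq_zero.mp h4 with h | h
      · exact absurd h (inv_ne_zero hn.ne')
      · exact h
    have h6 : G x y = 1 := by
      rw [hd, map_sub, hG1 x hx] at h5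
      linarith
    have h7 : G x ((1 - (1 / 2 : ℝ)) • x + (1 / 2 : ℝ) • y) = 1 := by
      rw [map_add, map_smul, map_smul, h6, hG1 x hx]
      norm_num
    have h8 := fbound (G x) x hx (hG2 x hx) ((1 - (1 / 2 : ℝ)) • x + (1 / 2 : ℝ) • y)
    have h9 : ‖(1 - (1 / 2 : ℝ)) • x + (1 / 2 : ℝ) • y‖ ≤ 1 := by
      refine (norm_add_le _ _).trans ?_
      rw [norm_smul, norm_smul, hx, hy, Real.norm_eq_abs, Real.norm_eq_abs]
      norm_num [abs_of_pos]
    exact hxy (hconv x y hx hy (1 / 2) (by norm_num) (by norm_num) (le_antisymm h9 (by rw [h7] at h8; exact h8)))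
  · have hRxy : R x = y := by rw [hRx, h1]; module
    have hAx := hA X R hRR hRn x hx (G x) (G y) (hG1 x hx) (hG2 x hx)
      (by rw [hRxy]; exact hG1 y hy) (by rw [hRxy]; exact hG2 y hy)
    have h2 := hAx y
    have h3 : R y = x := by rw [← hRxy]; exact hRR x
    rw [h3] at h2
    exact h2.symm

end Pool.Agent.Q222.KS
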