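import Pool.Agent.Q264.KS.Stm3

/-!
# Project KS, job K2
-/

set_option autoImplicit false

namespace Pool.Agent.Q222.KS.K2

open Module Filter Topology Pool.Agent.Q264.KS

universe u

variable {X : Type u} [NormedAddCommGroup X] [NormedSpace ℝ X]

theorem D_le (x y : X) : D x y ≤ ‖y‖ := by
  have h : ‖D x‖ ≤ 1 := by
    have := norm_fderiv_le_of_lipschitz ℝ (f := fun z : X => ‖z‖) (x₀ := x) (C := 1)
      lipschitzWith_one_norm
    simpa [D] using this
  calc D x y ≤ ‖D x y‖ := Real.le_norm_self _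
    _ ≤ ‖D x‖ * ‖y‖ := (D x).le_opNorm y
    _ ≤ 1 * ‖y‖ := by gcongr
    _ = ‖y‖ := one_mul _

theorem D_self {x : X} (h : Sm x) : D x x = ‖x‖ := DifferentiableAt.fderiv_norm_self h

theorem lim_le {z : X} {g : X →L[ℝ] ℝ} (h : Lim z g) (y : X) : g y ≤ ‖y‖ := by
  obtain ⟨x, hx, hxz, hg⟩ := h
  have h1 : Tendsto (fun k => D (x k) y) atTop (𝓝 (g y)) :=
    ((ContinuousLinearMap.apply ℝ ℝ y).continuous.tendsto g).comp hg
  exact le_of_tendsto h1 (Eventually.of_forall fun k => D_le _ _)

theorem lim_self {z : X} {g : X →L[ℝ] ℝ} (h : Lim z g) : g z = ‖z‖ := by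
  obtain ⟨x, hx, hxz, hg⟩ := h
  have h1 : Tendsto (fun k => D (x k) (x k)) atTop (𝓝 (g z)) := by
    have hc : Continuous fun p : (X →L[ℝ] ℝ) × X => p.1 p.2 := continuous_fst.clm_apply continuous_snd
    exact (hc.tendsto (g, z)).comp (hg.prodMk_nhds hxz)
  have h2 : Tendsto (fun k => D (x k) (x k)) atTop (𝓝 ‖z‖) := by
    have h3 : (fun k => D (x k) (x k)) = fun k => ‖x k‖ := by
      funext k
      exact D_self (hx k)
    rw [h3]
    exact (continuous_norm.tendsto z).comp hxz
  exact tendsto_nhds_unique h1 h2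

theorem two_ker [FiniteDimensional ℝ X] (h3 : finrank ℝ X = 3) (g h : X →L[ℝ] ℝ) :
    ∃ u : X, u ≠ 0 ∧ g u = 0 ∧ h u = 0 := by
  let L : X →ₗ[ℝ] ℝ × ℝ := (g : X →ₗ[ℝ] ℝ).prod (h : X →ₗ[ℝ] ℝ)
  have hlt : finrank ℝ (ℝ × ℝ) < finrank ℝ X := by
    rw [h3, Module.finrank_prod]
    simp
  have hk : LinearMap.ker L ≠ ⊥ := LinearMap.ker_ne_bot_of_finrank_lt hlt
  obtain ⟨u, hu, hu0⟩ := Submodule.exists_mem_ne_zero_of_ne_bot hk
  have hu' : L u = 0 := hu
  exact ⟨u, hu0, congrArg Prod.fst hu', congrArg Prod.snd hu'⟩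

theorem agree3 [FiniteDimensional ℝ X] (h3 : finrank ℝ X = 3) (p q r : X)
    (hli : ∀ a b c : ℝ, a • p + b • q + c • r = 0 → a = 0 ∧ b = 0 ∧ c = 0)
    (f g : X →L[ℝ] ℝ) (hp : f p = g p) (hq : f q = g q) (hr : f r = g r) : f = g := by
  have hl : LinearIndependent ℝ ![p, q, r] := by
    rw [Fintype.linearIndependent_iff]
    intro c hc
    rw [Fin.sum_univ_three] at hc
    obtain ⟨h0, h1, h2⟩ := hli (c 0) (c 1) (c 2) (by simpa using hc)
    intro i
    fin_cases i
    · exact h0
    · exact h1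
    · exact h2
  let B : Basis (Fin 3) ℝ X := basisOfLinearIndependentOfCardEqFinrank hl (by simp [h3])
  have hB : ∀ i, B i = (![p, q, r] : Fin 3 → X) i := by
    intro i
    simp [B]
  have : (f : X →ₗ[ℝ] ℝ) = (g : X →ₗ[ℝ] ℝ) := by
    refine B.ext fun i => ?_
    rw [hB i]
    fin_cases i
    · exact hp
    · exact hq
    · exact hr
  ext y
  exact congrArg (fun l : X →ₗ[ℝ] ℝ => l y) this

theorem t_K2 : S_K2.{u} := by
  intro hS2C hS2 hBJD hUNI hDEN hK0 hAE X _ _ _ h3 hP z hz hnz
  obtain ⟨g₁, g₂, hg, L₁, L₂⟩ := hK0 hDEN X z hz hnz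
  have hg1z : g₁ z = 1 := by rw [lim_self L₁, hz]
  have hg2z : g₂ z = 1 := by rw [lim_self L₂, hz]
  have hz0 : z ≠ 0 := by
    intro h; rw [h, norm_zero] at hz; exact zero_ne_one hz
  obtain ⟨u, hu0, hu1, hu2⟩ := two_ker h3 g₁ g₂
  obtain ⟨x0, hx0, hx0u⟩ := no_flat (by omega) hP u hu0 (Metric.ball z (1 / 16))
    Metric.isOpen_ball ⟨z, Metric.mem_ball_self (by norm_num)⟩
  have hx0l : ∃ l : ℝ, ‖x0 + l • u‖ < ‖x0‖ := by
    by_contra hcon
    push Not at hcon
    exact hx0u hcon
  obtain ⟨l, hl⟩ := hx0l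
  let O : Set X := {x | x ∈ Metric.ball z (1 / 16) ∧ ‖x + l • u‖ < ‖x‖}
  have hO : IsOpen O := by
    refine Metric.isOpen_ball.inter (isOpen_lt ?_ continuous_norm)
    exact (continuous_id.add continuous_const).norm
  -- the main step
  have key : ∀ x ∈ O, (∀ k : ℕ, Sm (z + ((1 / 2 : ℝ) ^ k) • (x - z))) → D x z = 1 := by
    intro x hx hsm
    have hxz : ‖x - z‖ < 1 / 16 := by
      have := hx.1
      rwa [mem_ball_iff_norm] at this
    have hSx : Sm x := by
      have := hsm 0
      rw [pow_zero, one_smul, add_sub_cancel] at this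
      exact this
    have hxn : 15 / 16 < ‖x‖ := by
      have h1 : ‖z‖ ≤ ‖x‖ + ‖x - z‖ := by
        calc ‖z‖ = ‖x - (x - z)‖ := by rw [sub_sub_cancel]
          _ ≤ ‖x‖ + ‖x - z‖ := norm_sub_le _ _
      linarith
    have hDu : D x u ≠ 0 := by
      intro h
      have hb : BJ x u := (hBJD X x hSx u).2 h
      exact absurd (hb l) (not_le.2 hx.2)
    have hDz : 0 < D x z := by
      have h1 : D x x = ‖x‖ := D_self hSx
      have h2 : D x (x - z) ≤ ‖x - z‖ := D_le _ _
      rw [map_sub] at h2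
      linarith
    have hne1 : g₁ ≠ D x := fun h => hDu (by rw [← h]; exact hu1)
    have hne2 : g₂ ≠ D x := fun h => hDu (by rw [← h]; exact hu2)
    obtain ⟨v₁, hv1, hv1g, hv1D⟩ := two_ker h3 g₁ (D x)
    obtain ⟨v₂, hv2, hv2g, hv2D⟩ := two_ker h3 g₂ (D x)
    have hgv : g₁ v₂ ≠ 0 := by
      intro h
      apply hg
      refine agree3 h3 u v₂ z ?_ g₁ g₂ (by rw [hu1, hu2]) (by rw [h, hv2g]) (by rw [hg1z, hg2z])
      intro a b c habc
      have e1 := congrArg g₁ habc
      simp only [map_add, map_smul, hu1, h, hg1z, smul_eq_mul, mul_zero, mul_one, zero_add,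
        map_zero] at e1
      rw [e1, zero_smul, add_zero] at habc
      have e2 := congrArg (D x) habc
      simp only [map_add, map_smul, hv2D, smul_eq_mul, mul_zero, add_zero, map_zero] at e2
      have ha : a = 0 := by
        rcases mul_eq_zero.1 e2 with h' | h'
        · exact h'
        · exact absurd h' hDu
      rw [ha, zero_smul, zero_add] at habc
      have hb : b = 0 := by
        rcases smul_eq_zero.1 habc with h' | h'
        · exact h'
        · exact absurd h' hv2
      exact ⟨ha, hb, e1⟩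
    have step : ∀ k : ℕ, D x (z + ((1 / 2 : ℝ) ^ k) • (x - z)) =
        ‖z + ((1 / 2 : ℝ) ^ k) • (x - z)‖ := by
      intro k
      set s : ℝ := (1 / 2 : ℝ) ^ k with hs
      have hs0 : 0 < s := by positivity
      have hs1 : s ≤ 1 := pow_le_one₀ (by norm_num) (by norm_num)
      set h : X := z + s • (x - z) with hh
      have hSh : Sm h := hsm k
      have hcomb : (1 - s) • z + s • x = h := by
        rw [hh, smul_sub, sub_smul, one_smul]; abel
      have b1 : BJ h v₁ := by
        rw [← hcomb]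
        exact hS2C hS2 hBJD hUNI X h3 hP z x v₁ g₁ hz L₁ hSx hxz.le hv1g hv1D hv1 hne1
          (1 - s) s (by linarith) hs0.le
      have b2 : BJ h v₂ := by
        rw [← hcomb]
        exact hS2C hS2 hBJD hUNI X h3 hP z x v₂ g₂ hz L₂ hSx hxz.le hv2g hv2D hv2 hne2
          (1 - s) s (by linarith) hs0.le
      have d1 : D h v₁ = 0 := (hBJD X h hSh v₁).1 b1
      have d2 : D h v₂ = 0 := (hBJD X h hSh v₂).1 b2
      set c : ℝ := D h z / D x z with hc
      have hDc : D h = c • D x := by
        refine agree3 h3 v₁ v₂ z ?_ _ _ ?_ ?_ ?_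
        · intro a b e habc
          have e1 := congrArg (D x) habc
          simp only [map_add, map_smul, hv1D, hv2D, smul_eq_mul, mul_zero, zero_add,
            map_zero] at e1
          have he : e = 0 := by
            rcases mul_eq_zero.1 e1 with h' | h'
            · exact h'
            · exact absurd h' hDz.ne'
          rw [he, zero_smul, add_zero] at habc
          have e2 := congrArg g₁ habc
          simp only [map_add, map_smul, hv1g, smul_eq_mul, mul_zero, zero_add, map_zero] at e2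
          have hb : b = 0 := by
            rcases mul_eq_zero.1 e2 with h' | h'
            · exact h'
            · exact absurd h' hgv
          rw [hb, zero_smul, add_zero] at habc
          have ha : a = 0 := by
            rcases smul_eq_zero.1 habc with h' | h'
            · exact h'
            · exact absurd h' hv1
          exact ⟨ha, hb, he⟩
        · change D h v₁ = c * D x v₁
          rw [d1, hv1D, mul_zero]
        · change D h v₂ = c * D x v₂
          rw [d2, hv2D, mul_zero]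
        · change D h z = c * D x z
          rw [hc, div_mul_cancel₀ _ hDz.ne']
      have hhn : 15 / 16 < ‖h‖ := by
        have h1 : ‖z‖ ≤ ‖h‖ + ‖s • (x - z)‖ := by
          calc ‖z‖ = ‖h - s • (x - z)‖ := by rw [hh, add_sub_cancel_right]
            _ ≤ ‖h‖ + ‖s • (x - z)‖ := norm_sub_le _ _
        have h2 : ‖s • (x - z)‖ ≤ ‖x - z‖ := by
          rw [norm_smul, Real.norm_of_nonneg hs0.le]
          nlinarith [norm_nonneg (x - z)]
        linarith
      have hxh : ‖x - h‖ ≤ ‖x - z‖ := by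
        have : x - h = (1 - s) • (x - z) := by
          rw [hh, sub_smul, one_smul]; abel
        rw [this, norm_smul, Real.norm_of_nonneg (by linarith)]
        nlinarith [norm_nonneg (x - z)]
      have hDxh : 0 < D x h := by
        have h1 : D x x = ‖x‖ := D_self hSx
        have h2 : D x (x - h) ≤ ‖x - h‖ := D_le _ _
        rw [map_sub] at h2
        linarith
      have e1 : ‖h‖ = c * D x h := by
        rw [← D_self hSh]
        conv_lhs => rw [hDc]
        rfl
      have e2 : c * ‖x‖ ≤ ‖x‖ := by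
        have h1 : D h x ≤ ‖x‖ := D_le _ _
        rw [hDc] at h1
        change c * D x x ≤ ‖x‖ at h1
        rwa [D_self hSx] at h1
      have hc1 : c ≤ 1 := by
        by_contra hcon
        push Not at hcon
        nlinarith
      have e3 : D x h ≤ ‖h‖ := D_le _ _
      have hc2 : 1 ≤ c := by
        by_contra hcon
        push Not at hcon
        nlinarith
      have hc3 : c = 1 := le_antisymm hc1 hc2
      rw [e1, hc3, one_mul]
    have t1 : Tendsto (fun k : ℕ => z + ((1 / 2 : ℝ) ^ k) • (x - z)) atTop (𝓝 z) := by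
      have h1 : Tendsto (fun k : ℕ => ((1 / 2 : ℝ) ^ k) • (x - z)) atTop (𝓝 ((0 : ℝ) • (x - z))) :=
        (tendsto_pow_atTop_nhds_zero_of_lt_one (by norm_num) (by norm_num)).smul_const _
      rw [zero_smul] at h1
      simpa using h1.const_add z
    have t2 : Tendsto (fun k : ℕ => D x (z + ((1 / 2 : ℝ) ^ k) • (x - z))) atTop (𝓝 (D x z)) :=
      ((D x).continuous.tendsto z).comp t1
    have t3 : Tendsto (fun k : ℕ => D x (z + ((1 / 2 : ℝ) ^ k) • (x - z))) atTop (𝓝 ‖z‖) := by
      have : (fun k : ℕ => D x (z + ((1 / 2 : ℝ) ^ k) • (x - z))) =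
          fun k : ℕ => ‖z + ((1 / 2 : ℝ) ^ k) • (x - z)‖ := funext step
      rw [this]
      exact (continuous_norm.tendsto z).comp t1
    rw [tendsto_nhds_unique t2 t3, hz]
  refine ⟨O, hO, ⟨x0, hx0, hl⟩, fun x hx => hx.1, ?_⟩
  intro x hx t ht
  by_contra hcon
  let O' : Set X := {y | y ∈ O ∧ ‖y + t • z‖ ≠ ‖y‖ + t}
  have hO' : IsOpen O' := by
    refine hO.inter (isOpen_ne_fun ?_ ?_)
    · exact (continuous_id.add continuous_const).norm
    · exact continuous_norm.add continuous_const
  obtain ⟨y, hy, hysm⟩ := hAE X z O' hO' ⟨x, hx, hcon⟩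
  have hDy := key y hy.1 hysm
  have hSy : Sm y := by
    have := hysm 0
    rw [pow_zero, one_smul, add_sub_cancel] at this
    exact this
  apply hy.2
  apply le_antisymm
  · calc ‖y + t • z‖ ≤ ‖y‖ + ‖t • z‖ := norm_add_le _ _
      _ = ‖y‖ + t := by rw [norm_smul, hz, mul_one, Real.norm_of_nonneg ht]
  · have h1 : D y (y + t • z) ≤ ‖y + t • z‖ := D_le _ _
    rw [map_add, map_smul, D_self hSy, hDy, smul_eq_mul, mul_one] at h1
    exact h1

end Pool.Agent.Q222.KS.K2
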