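import Pool.Agent.Q264.KS.Stm3
import Pool.Agent.Q222.KS.K2

/-!
# Project KS, job K4A
-/

set_option autoImplicit false

namespace Pool.Agent.Q222.KS.K4A

open Module Filter Topology Pool.Agent.Q264.KS Pool.Agent.Q222.KS.K2

universe u

theorem t_K4A : S_K4A.{u} := by
  intro hS2 hBJD hUNI hHB X _ _ _ h3 hP z O hz hO hOz x₁ x₂ hx1 hx2 hs1 hs2 hc1 hc2 hne a b ha hb
    hab
  -- norming functionals at the points of O
  have hN : ∀ (g : X →L[ℝ] ℝ) (y₀ : X), (∀ y, g y ≤ ‖y‖) → g y₀ = ‖y₀‖ → y₀ ∈ O → g z = 1 := by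
    intro g y₀ hg hgy hy
    obtain ⟨r, hr, hball⟩ := Metric.isOpen_iff.1 hO y₀ hy
    have hmem : y₀ - (r / 2) • z ∈ O := by
      apply hball
      rw [mem_ball_iff_norm, sub_sub_cancel_left, norm_neg, norm_smul, hz, mul_one,
        Real.norm_of_nonneg (by linarith)]
      linarith
    have h1 := hOz _ hmem (r / 2) (by linarith)
    rw [sub_add_cancel] at h1
    have h2 := hg (y₀ - (r / 2) • z)
    rw [map_sub, map_smul, hgy, smul_eq_mul] at h2
    have h4 : g z ≤ 1 := by rw [← hz]; exact hg z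
    nlinarith
  have e1 : D x₁ z = 1 := hN (D x₁) x₁ (D_le x₁) (D_self hs1) hx1
  have e2 : D x₂ z = 1 := hN (D x₂) x₂ (D_le x₂) (D_self hs2) hx2
  obtain ⟨v, hv, hv1, hv2⟩ := two_ker h3 (D x₁) (D x₂)
  have hbj : BJ (a • x₁ + b • x₂) v :=
    hS2 hBJD hUNI X h3 hP x₁ x₂ v hs1 hs2 hc1 hc2 hv1 hv2 hv hne a b ha hb
  obtain ⟨g, hg, hgh, hgv⟩ := hHB X (a • x₁ + b • x₂) v hbj
  have hgz : g z = 1 := hN g _ hg hgh hab
  obtain ⟨y, hy⟩ : ∃ y, D x₁ y ≠ D x₂ y := by
    by_contra hcon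
    push Not at hcon
    exact hne (ContinuousLinearMap.ext hcon)
  have hy' : D x₁ y - D x₂ y ≠ 0 := sub_ne_zero.2 hy
  set α : ℝ := (g y - D x₂ y) / (D x₁ y - D x₂ y) with hα
  have hgα : g = α • D x₁ + (1 - α) • D x₂ := by
    refine agree3 h3 v z y ?_ _ _ ?_ ?_ ?_
    · intro p q r hpqr
      have f1 := congrArg (D x₁) hpqr
      have f2 := congrArg (D x₂) hpqr
      simp only [map_add, map_smul, hv1, e1, smul_eq_mul, mul_zero, mul_one, zero_add,
        map_zero] at f1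
      simp only [map_add, map_smul, hv2, e2, smul_eq_mul, mul_zero, mul_one, zero_add,
        map_zero] at f2
      have hr : r = 0 := by
        have : r * (D x₁ y - D x₂ y) = 0 := by linarith
        rcases mul_eq_zero.1 this with h' | h'
        · exact h'
        · exact absurd h' hy'
      rw [hr, zero_mul, add_zero] at f1
      rw [hr, f1, zero_smul, zero_smul, add_zero, add_zero] at hpqr
      have hp : p = 0 := by
        rcases smul_eq_zero.1 hpqr with h' | h'
        · exact h'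
        · exact absurd h' hv
      exact ⟨hp, f1, hr⟩
    · change g v = α * D x₁ v + (1 - α) * D x₂ v
      rw [hgv, hv1, hv2]; ring
    · change g z = α * D x₁ z + (1 - α) * D x₂ z
      rw [hgz, e1, e2]; ring
    · change g y = α * D x₁ y + (1 - α) * D x₂ y
      have : α * (D x₁ y - D x₂ y) = g y - D x₂ y := div_mul_cancel₀ _ hy'
      linarith
  have gap : ∀ w, g w = α * D x₁ w + (1 - α) * D x₂ w := fun w => by rw [hgα]; rfl
  have hα0 : 0 ≤ α := by
    by_contra hcon
    push Not at hcon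
    apply hne
    have h1 := hg x₂
    rw [gap, D_self hs2] at h1
    have h2 : ‖x₂‖ ≤ D x₁ x₂ := by nlinarith
    exact hUNI X x₂ hs2 (D x₁) (D_le x₁) (le_antisymm (D_le _ _) h2)
  have hα1 : 0 ≤ 1 - α := by
    by_contra hcon
    push Not at hcon
    apply hne
    have h1 := hg x₁
    rw [gap, D_self hs1] at h1
    have h2 : ‖x₁‖ ≤ D x₂ x₁ := by nlinarith
    exact (hUNI X x₁ hs1 (D x₂) (D_le x₂) (le_antisymm (D_le _ _) h2)).symm
  apply le_antisymm
  · rw [← hgh, gap]
    have m1 := le_max_left (D x₁ (a • x₁ + b • x₂)) (D x₂ (a • x₁ + b • x₂))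
    have m2 := le_max_right (D x₁ (a • x₁ + b • x₂)) (D x₂ (a • x₁ + b • x₂))
    nlinarith
  · exact max_le (D_le _ _) (D_le _ _)

end Pool.Agent.Q222.KS.K4A
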