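import Pool.Agent.H376R2.MR.Kern
import Pool.Agent.Q240.KS.Stm1

/-!
# Project KS, job KERV: the kernel at all polynomial heights

Adapted from `Pool/Agent/H376R2/MR/Kern.lean` (exponent `2` replaced by any natural number).
-/

set_option autoImplicit false

namespace Pool.Agent.Q222.KS

open Finset Filter Pool.Agent.H376R2.MR Pool.Agent.Q240.KS

/-- the sum over a window of logarithmic length `2c` against the integral -/
theorem kern_windowM (M : ℕ) (η C : ℝ) (hη : 0 < η) (hη1 : η ≤ 1 / 2) (hC : 0 < C)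
    (hph : ∀ (a b : ℕ) (τ : ℝ), 1 ≤ a → a ≤ b → b ≤ 3 * a → |τ| ≤ (a : ℝ) ^ (2 * M) →
      ‖kernT τ a b‖ ≤ C * (a : ℝ) ^ (-η)) (Z : ℝ) (hZ : Real.exp 9 ≤ Z) (τ : ℤ)
    (hτ : |(τ : ℝ)| ≤ Z ^ M) (c : ℝ) (hc2 : 2 ≤ c) (hc3 : c ≤ 3) :
    ‖(∑ n ∈ Icc 1 ⌊Real.exp 3 * Z⌋₊,
        (if |Real.log n - Real.log Z| ≤ c then ch τ (Real.log n) / (n : ℂ) else 0)) -
      ch τ (Real.log Z) * ∫ s in (-c)..c, ch τ s‖ ≤ (7 * C * 27 + 28) * Z ^ (-η) := by
  have hZ1 : 1 ≤ Z := le_trans (Real.one_le_exp (by norm_num)) hZ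
  have hZ0 : 0 < Z := by linarith
  have he3 : Real.exp 3 ≤ 27 := by
    have h1 : Real.exp 3 = Real.exp 1 ^ 3 := by
      rw [← Real.exp_nat_mul]; norm_num
    rw [h1]
    have h2 : Real.exp 1 ≤ 3 := by
      have := Real.exp_one_lt_d9
      linarith
    calc Real.exp 1 ^ 3 ≤ 3 ^ 3 := by gcongr
      _ = 27 := by norm_num
  have hec : Real.exp c ≤ 27 := (Real.exp_le_exp.2 hc3).trans he3
  have hec' : 1 / 27 ≤ Real.exp (-c) := by
    rw [Real.exp_neg, one_div]
    exact inv_anti₀ (Real.exp_pos c) hec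
  have hZe : (0 : ℝ) < Z * Real.exp (-c) := by positivity
  have hZe1 : 1 ≤ Z * Real.exp (-c) := by
    have h1 : Real.exp 9 * Real.exp (-c) ≤ Z * Real.exp (-c) := by gcongr
    have h2 : 1 ≤ Real.exp 9 * Real.exp (-c) := by
      rw [← Real.exp_add]
      exact Real.one_le_exp (by linarith)
    linarith
  obtain ⟨a, ha⟩ : ∃ a : ℕ, a = ⌈Z * Real.exp (-c)⌉₊ := ⟨_, rfl⟩
  obtain ⟨b, hb⟩ : ∃ b : ℕ, b = ⌊Z * Real.exp c⌋₊ + 1 := ⟨_, rfl⟩
  have ha1 : Z * Real.exp (-c) ≤ a := by rw [ha]; exact Nat.le_ceil _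
  have ha2 : (a : ℝ) < Z * Real.exp (-c) + 1 := by rw [ha]; exact Nat.ceil_lt_add_one hZe.le
  have hb1 : Z * Real.exp c < b := by rw [hb]; push_cast; exact Nat.lt_floor_add_one _
  have hb2 : (b : ℝ) ≤ Z * Real.exp c + 1 := by
    rw [hb]; push_cast
    have := Nat.floor_le (show 0 ≤ Z * Real.exp c by positivity)
    linarith
  have ha0 : 1 ≤ a := by
    have : (1 : ℝ) ≤ a := by linarith
    exact_mod_cast this
  have hexp : Real.exp (-c) ≤ Real.exp c := Real.exp_le_exp.2 (by linarith)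
  have hab : a ≤ b := by
    have h1 : Z * Real.exp (-c) ≤ Z * Real.exp c := by gcongr
    have h2 : (a : ℝ) < b + 1 := by linarith
    have h3 : a < b + 1 := by exact_mod_cast h2
    omega
  have hb7 : b ≤ 3 ^ 7 * a := by
    have h1 : (b : ℝ) ≤ 3 ^ 7 * a := by
      have h2 : Z * (1 / 27) ≤ a := by
        calc Z * (1 / 27) ≤ Z * Real.exp (-c) := by gcongr
          _ ≤ a := ha1
      have h3 : (b : ℝ) ≤ Z * 27 + 1 := by
        calc (b : ℝ) ≤ Z * Real.exp c + 1 := hb2
          _ ≤ Z * 27 + 1 := by gcongr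
      have h4 : (1 : ℝ) ≤ a := by exact_mod_cast ha0
      norm_num
      linarith
    exact_mod_cast h1
  have hZa : Z ≤ (a : ℝ) ^ 2 := by
    have h2 : Z * (1 / 27) ≤ a := by
      calc Z * (1 / 27) ≤ Z * Real.exp (-c) := by gcongr
        _ ≤ a := ha1
    have h3 : (729 : ℝ) ≤ Z := by
      have h4 : Real.exp 9 = Real.exp 1 ^ 9 := by
        rw [← Real.exp_nat_mul]; norm_num
      have h5 : (2.7 : ℝ) ≤ Real.exp 1 := by
        have := Real.exp_one_gt_d9
        linarith
      have h6 : (2.7 : ℝ) ^ 9 ≤ Real.exp 1 ^ 9 := by gcongr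
      rw [← h4] at h6
      norm_num at h6
      linarith
    nlinarith [mul_self_nonneg ((a : ℝ) - Z * (1 / 27))]
  have hτa : |(-(τ : ℝ))| ≤ (a : ℝ) ^ (2 * M) := by
    rw [abs_neg, pow_mul]
    exact hτ.trans (pow_le_pow_left₀ hZ0.le hZa M)
  have hT := kern_blocks (2 * M) η C hη hC hph 7 a b (-(τ : ℝ)) ha0 hab hb7 hτa
  -- the sum
  have hsum : (∑ n ∈ Icc 1 ⌊Real.exp 3 * Z⌋₊,
        (if |Real.log n - Real.log Z| ≤ c then ch τ (Real.log n) / (n : ℂ) else 0)) =
      ∑ n ∈ Ico a b, er (-(τ : ℝ)) (Real.log n) / (n : ℂ) := by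
    rw [← Finset.sum_filter]
    have hset : (Icc 1 ⌊Real.exp 3 * Z⌋₊).filter (fun n : ℕ => |Real.log n - Real.log Z| ≤ c) =
        Ico a b := by
      ext n
      rw [Finset.mem_filter, Finset.mem_Icc, Finset.mem_Ico]
      constructor
      · rintro ⟨⟨h1, h2⟩, h3⟩
        have hn0 : (0 : ℝ) < n := by exact_mod_cast h1
        rw [abs_le] at h3
        constructor
        · rw [ha]
          refine Nat.ceil_le.2 ?_
          have h4 : Real.log Z + (-c) ≤ Real.log n := by linarith [h3.1]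
          calc Z * Real.exp (-c) = Real.exp (Real.log Z + (-c)) := by
                rw [Real.exp_add, Real.exp_log hZ0]
            _ ≤ Real.exp (Real.log n) := Real.exp_le_exp.2 h4
            _ = n := Real.exp_log hn0
        · rw [hb]
          refine Nat.lt_succ_of_le (Nat.le_floor ?_)
          have h4 : Real.log n ≤ Real.log Z + c := by linarith [h3.2]
          calc (n : ℝ) = Real.exp (Real.log n) := (Real.exp_log hn0).symm
            _ ≤ Real.exp (Real.log Z + c) := Real.exp_le_exp.2 h4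
            _ = Z * Real.exp c := by rw [Real.exp_add, Real.exp_log hZ0]
      · rintro ⟨h1, h2⟩
        have hn1 : 1 ≤ n := le_trans ha0 h1
        have hn0 : (0 : ℝ) < n := by exact_mod_cast hn1
        have h3 : n ≤ ⌊Z * Real.exp c⌋₊ := by omega
        have h4 : (n : ℝ) ≤ Z * Real.exp c := by
          have := Nat.floor_le (show 0 ≤ Z * Real.exp c by positivity)
          have h5 : (n : ℝ) ≤ (⌊Z * Real.exp c⌋₊ : ℝ) := by exact_mod_cast h3
          linarith
        refine ⟨⟨hn1, Nat.le_floor ?_⟩, ?_⟩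
        · calc (n : ℝ) ≤ Z * Real.exp c := h4
            _ ≤ Z * Real.exp 3 := by
                have := Real.exp_le_exp.2 hc3
                gcongr
            _ = Real.exp 3 * Z := by ring
        · rw [abs_le]
          constructor
          · have h5 : Z * Real.exp (-c) ≤ n := ha1.trans (by exact_mod_cast h1)
            have h6 := Real.log_le_log hZe h5
            rw [Real.log_mul hZ0.ne' (Real.exp_pos _).ne', Real.log_exp] at h6
            linarith
          · have h6 := Real.log_le_log hn0 h4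
            rw [Real.log_mul hZ0.ne' (Real.exp_pos _).ne', Real.log_exp] at h6
            linarith
    rw [hset]
    exact Finset.sum_congr rfl fun n _ => by rw [kern_ch_er]
  -- the integral
  have hint : ch τ (Real.log Z) * ∫ s in (-c)..c, ch τ s =
      ∫ s in (Real.log Z - c)..(Real.log Z + c), er (-(τ : ℝ)) s := by
    have h1 : ∫ s in (-c)..c, er (-(τ : ℝ)) (s + Real.log Z) =
        ∫ s in (-c + Real.log Z)..(c + Real.log Z), er (-(τ : ℝ)) s :=
      intervalIntegral.integral_comp_add_right (fun s => er (-(τ : ℝ)) s) (Real.log Z)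
    rw [show Real.log Z - c = -c + Real.log Z by ring, show Real.log Z + c = c + Real.log Z by ring,
      ← h1, ← intervalIntegral.integral_const_mul]
    refine intervalIntegral.integral_congr fun s _ => ?_
    show ch τ (Real.log Z) * ch τ s = er (-(τ : ℝ)) (s + Real.log Z)
    rw [kern_ch_er, kern_ch_er, kern_er_add]
    ring
  have hii : ∀ x y : ℝ, IntervalIntegrable (fun s => er (-(τ : ℝ)) s) MeasureTheory.volume x y :=
    fun x y => (kern_er_cont _).intervalIntegrable _ _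
  have hdiff : (∫ s in (Real.log a)..(Real.log b), er (-(τ : ℝ)) s) -
      ∫ s in (Real.log Z - c)..(Real.log Z + c), er (-(τ : ℝ)) s =
      (∫ s in (Real.log a)..(Real.log Z - c), er (-(τ : ℝ)) s) +
      ∫ s in (Real.log Z + c)..(Real.log b), er (-(τ : ℝ)) s := by
    rw [← intervalIntegral.integral_add_adjacent_intervals (hii (Real.log a) (Real.log Z - c))
      (hii (Real.log Z - c) (Real.log b)),
      ← intervalIntegral.integral_add_adjacent_intervals (hii (Real.log Z - c) (Real.log Z + c))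
      (hii (Real.log Z + c) (Real.log b))]
    ring
  have hn1 : ‖∫ s in (Real.log a)..(Real.log Z - c), er (-(τ : ℝ)) s‖ ≤ 27 / Z := by
    refine (intervalIntegral.norm_integral_le_of_norm_le_const
      (C := 1) fun s _ => (kern_er_norm _ s).le).trans ?_
    rw [one_mul]
    have h1 : Real.log Z - c ≤ Real.log a := by
      have h6 := Real.log_le_log hZe ha1
      rw [Real.log_mul hZ0.ne' (Real.exp_pos _).ne', Real.log_exp] at h6
      linarith
    have h2 : Real.log a - (Real.log Z - c) ≤ 27 / Z := by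
      have ha0' : (0 : ℝ) < a := by exact_mod_cast ha0
      have h3 : Real.log a - (Real.log Z - c) = Real.log (a / (Z * Real.exp (-c))) := by
        rw [Real.log_div ha0'.ne' hZe.ne', Real.log_mul hZ0.ne' (Real.exp_pos _).ne', Real.log_exp]
        ring
      rw [h3]
      refine (Real.log_le_sub_one_of_pos (by positivity)).trans ?_
      rw [div_sub_one hZe.ne', div_le_div_iff₀ hZe hZ0]
      have h5 : (a : ℝ) - Z * Real.exp (-c) ≤ 1 := by linarith
      calc ((a : ℝ) - Z * Real.exp (-c)) * Z ≤ 1 * Z := by gcongr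
        _ = 27 * (Z * (1 / 27)) := by ring
        _ ≤ 27 * (Z * Real.exp (-c)) := by gcongr
    rw [abs_le]
    constructor
    · linarith
    · have : (0 : ℝ) ≤ 27 / Z := by positivity
      linarith
  have hn2 : ‖∫ s in (Real.log Z + c)..(Real.log b), er (-(τ : ℝ)) s‖ ≤ 1 / Z := by
    refine (intervalIntegral.norm_integral_le_of_norm_le_const
      (C := 1) fun s _ => (kern_er_norm _ s).le).trans ?_
    rw [one_mul]
    have hZc : 0 < Z * Real.exp c := by positivity
    have hZcZ : Z ≤ Z * Real.exp c := by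
      have : 1 ≤ Real.exp c := Real.one_le_exp (by linarith)
      nlinarith
    have hb0 : (0 : ℝ) < b := by linarith
    have h1 : Real.log Z + c ≤ Real.log b := by
      have h6 := Real.log_le_log hZc hb1.le
      rw [Real.log_mul hZ0.ne' (Real.exp_pos _).ne', Real.log_exp] at h6
      linarith
    have h2 : Real.log b - (Real.log Z + c) ≤ 1 / Z := by
      have h3 : Real.log b - (Real.log Z + c) = Real.log (b / (Z * Real.exp c)) := by
        rw [Real.log_div hb0.ne' hZc.ne', Real.log_mul hZ0.ne' (Real.exp_pos _).ne', Real.log_exp]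
      rw [h3]
      refine (Real.log_le_sub_one_of_pos (by positivity)).trans ?_
      rw [div_sub_one hZc.ne', div_le_div_iff₀ hZc hZ0]
      have h5 : (b : ℝ) - Z * Real.exp c ≤ 1 := by linarith
      calc ((b : ℝ) - Z * Real.exp c) * Z ≤ 1 * Z := by gcongr
        _ ≤ 1 * (Z * Real.exp c) := by gcongr
    rw [abs_le]
    constructor
    · have : (0 : ℝ) ≤ 1 / Z := by positivity
      linarith
    · linarith
  have hZη : 1 / Z ≤ Z ^ (-η) := by
    rw [one_div, ← Real.rpow_neg_one]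
    exact Real.rpow_le_rpow_of_exponent_le hZ1 (by linarith)
  have haη : (a : ℝ) ^ (-η) ≤ 27 * Z ^ (-η) := by
    have h1 : (a : ℝ) ^ (-η) ≤ (Z * (1 / 27)) ^ (-η) := by
      refine Real.rpow_le_rpow_of_nonpos (by positivity) ?_ (by linarith)
      calc Z * (1 / 27) ≤ Z * Real.exp (-c) := by gcongr
        _ ≤ a := ha1
    have h2 : (Z * (1 / 27)) ^ (-η) = Z ^ (-η) * 27 ^ η := by
      rw [Real.mul_rpow hZ0.le (by norm_num), Real.rpow_neg (by norm_num : (0 : ℝ) ≤ 1 / 27),
        one_div, Real.inv_rpow (by norm_num), inv_inv]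
    have h3 : (27 : ℝ) ^ η ≤ 27 ^ (1 : ℝ) :=
      Real.rpow_le_rpow_of_exponent_le (by norm_num) (by linarith)
    rw [Real.rpow_one] at h3
    have h4 : (0 : ℝ) ≤ Z ^ (-η) := by positivity
    rw [h2] at h1
    nlinarith
  rw [hsum, hint]
  have hfin : (∑ n ∈ Ico a b, er (-(τ : ℝ)) (Real.log n) / (n : ℂ)) -
      ∫ s in (Real.log Z - c)..(Real.log Z + c), er (-(τ : ℝ)) s =
      kernT (-(τ : ℝ)) a b + ((∫ s in (Real.log a)..(Real.log Z - c), er (-(τ : ℝ)) s) +
      ∫ s in (Real.log Z + c)..(Real.log b), er (-(τ : ℝ)) s) := by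
    rw [← hdiff]
    unfold kernT
    ring
  rw [hfin]
  calc _ ≤ ‖kernT (-(τ : ℝ)) a b‖ + (‖∫ s in (Real.log a)..(Real.log Z - c), er (-(τ : ℝ)) s‖ +
      ‖∫ s in (Real.log Z + c)..(Real.log b), er (-(τ : ℝ)) s‖) :=
        (norm_add_le _ _).trans (by gcongr; exact norm_add_le _ _)
    _ ≤ ((7 : ℕ) : ℝ) * C * (a : ℝ) ^ (-η) + (27 / Z + 1 / Z) := by gcongr
    _ ≤ ((7 : ℕ) : ℝ) * C * (27 * Z ^ (-η)) + 28 * Z ^ (-η) := by
        have : 27 / Z + 1 / Z = 28 * (1 / Z) := by ring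
        rw [this]
        gcongr
    _ = _ := by push_cast; ring

theorem kernM (M : ℕ) : ∃ (η : ℝ) (C : ℝ), 0 < η ∧ η ≤ 1 / 2 ∧ 0 < C ∧
    ∀ Z : ℝ, Real.exp 9 ≤ Z → ∀ τ : ℤ, |(τ : ℝ)| ≤ Z ^ M →
    ‖(∑ n ∈ Icc 1 ⌊Real.exp 3 * Z⌋₊,
        ((Wt (Real.log n - Real.log Z) / n : ℝ) : ℂ) * ch τ (Real.log n)) -
      ch τ (Real.log Z) * ∫ s in (-Real.pi)..Real.pi, (Wt s : ℂ) * ch τ s‖ ≤ C * Z ^ (-η) := by
  obtain ⟨η, C, hη, hη1, hC, hph⟩ := phase_sum (2 * M)
  refine ⟨η, 7 * C * 27 + 28, hη, hη1, by positivity, fun Z hZ τ hτ => ?_⟩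
  set N := ⌊Real.exp 3 * Z⌋₊ with hN
  have hcont : Continuous (fun s : ℝ => ch τ s) := by
    unfold ch
    fun_prop
  have hi1 : ∀ n : ℕ, MeasureTheory.IntegrableOn (fun c : ℝ =>
      if |Real.log n - Real.log Z| ≤ c then ch τ (Real.log n) / (n : ℂ) else 0)
      (Set.Ioc (2 : ℝ) 3) MeasureTheory.volume := by
    intro n
    refine MeasureTheory.Integrable.of_bound (Measurable.aestronglyMeasurable ?_)
      ‖ch τ (Real.log n) / (n : ℂ)‖ (Filter.Eventually.of_forall fun c => ?_)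
    · exact Measurable.ite (measurableSet_le measurable_const measurable_id) measurable_const
        measurable_const
    · split_ifs
      · exact le_rfl
      · rw [norm_zero]; exact norm_nonneg _
  have hi2 : MeasureTheory.IntegrableOn (fun c : ℝ => ∫ s in (-c)..c, ch τ s)
      (Set.Ioc (2 : ℝ) 3) MeasureTheory.volume := by
    have h1 : Continuous (fun c : ℝ => ∫ s in (-c)..c, ch τ s) := by
      have h2 : (fun c : ℝ => ∫ s in (-c)..c, ch τ s) = fun c : ℝ =>
          (∫ s in (0 : ℝ)..c, ch τ s) - ∫ s in (0 : ℝ)..(-c), ch τ s := by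
        funext c
        rw [intervalIntegral.integral_interval_sub_left
          (hcont.intervalIntegrable _ _) (hcont.intervalIntegrable _ _)]
      rw [h2]
      have h3 : Continuous (fun c : ℝ => ∫ s in (0 : ℝ)..c, ch τ s) :=
        intervalIntegral.continuous_primitive (fun a b => hcont.intervalIntegrable a b) 0
      exact h3.sub (h3.comp continuous_neg)
    exact (h1.integrableOn_Icc (a := 2) (b := 3)).mono_set Set.Ioc_subset_Icc_self
  have hkey : (∑ n ∈ Icc 1 N,
        ((Wt (Real.log n - Real.log Z) / n : ℝ) : ℂ) * ch τ (Real.log n)) -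
      ch τ (Real.log Z) * ∫ s in (-Real.pi)..Real.pi, (Wt s : ℂ) * ch τ s =
      ∫ c in Set.Ioc (2 : ℝ) 3, ((∑ n ∈ Icc 1 N,
        (if |Real.log n - Real.log Z| ≤ c then ch τ (Real.log n) / (n : ℂ) else 0)) -
      ch τ (Real.log Z) * ∫ s in (-c)..c, ch τ s) := by
    rw [MeasureTheory.integral_sub (MeasureTheory.integrable_finsetSum _ fun n _ => hi1 n)
      (hi2.const_mul _), MeasureTheory.integral_finsetSum _ (fun n _ => hi1 n),
      MeasureTheory.integral_const_mul, kern_fubini]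
    congr 1
    refine Finset.sum_congr rfl fun n _ => ?_
    rw [kern_Wt]
    push_cast
    ring
  rw [hkey]
  have hb : ∀ c ∈ Set.Ioc (2 : ℝ) 3, ‖(∑ n ∈ Icc 1 N,
        (if |Real.log n - Real.log Z| ≤ c then ch τ (Real.log n) / (n : ℂ) else 0)) -
      ch τ (Real.log Z) * ∫ s in (-c)..c, ch τ s‖ ≤ (7 * C * 27 + 28) * Z ^ (-η) := by
    intro c hc
    exact kern_windowM M η C hη hη1 hC (fun a b τ => hph a b τ) Z hZ τ hτ c hc.1.le hc.2
  have h := MeasureTheory.norm_setIntegral_le_of_norm_le_const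
    (μ := MeasureTheory.volume) (s := Set.Ioc (2 : ℝ) 3) (by simp) hb
  rw [Real.volume_real_Ioc_of_le (by norm_num)] at h
  refine h.trans (le_of_eq ?_)
  norm_num


/-- the integral of the trapezoid -/
theorem wt_int (τ : ℤ) (hτ : τ ≠ 0) :
    ‖∫ s in (-Real.pi)..Real.pi, (Wt s : ℂ) * ch τ s‖ ≤ 4 / (τ : ℝ) ^ 2 := by
  rw [kern_fubini]
  have hτ0 : (τ : ℝ) ≠ 0 := by exact_mod_cast hτ
  have hc : ((-(τ : ℝ) : ℝ) : ℂ) * Complex.I ≠ 0 := by
    simp [hτ]
  have h1 : ∀ c : ℝ, ∫ s in (-c)..c, ch τ s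
      = (er (-(τ : ℝ)) c - er (τ : ℝ) c) / (((-(τ : ℝ) : ℝ) : ℂ) * Complex.I) := by
    intro c
    have h2 : ∀ s : ℝ, ch τ s = Complex.exp ((((-(τ : ℝ) : ℝ) : ℂ) * Complex.I) * s) := by
      intro s
      unfold ch
      congr 1
      push_cast
      ring
    simp only [h2]
    rw [integral_exp_mul_complex hc]
    congr 1
    unfold er
    congr 2
    · push_cast; ring
    · push_cast; ring
  simp only [h1]
  rw [← intervalIntegral.integral_of_le (by norm_num), intervalIntegral.integral_div,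
    intervalIntegral.integral_sub ((kern_er_cont _).intervalIntegrable _ _)
      ((kern_er_cont _).intervalIntegrable _ _), norm_div]
  have h3 : ‖((-(τ : ℝ) : ℝ) : ℂ) * Complex.I‖ = |(τ : ℝ)| := by
    rw [norm_mul, Complex.norm_I, mul_one, Complex.norm_real, Real.norm_eq_abs, abs_neg]
  have h4 := phas_integral_er (-(τ : ℝ)) 2 3 (neg_ne_zero.mpr hτ0)
  have h5 := phas_integral_er (τ : ℝ) 2 3 hτ0
  rw [abs_neg] at h4
  rw [h3]
  have hpos : 0 < |(τ : ℝ)| := abs_pos.mpr hτ0
  have h6 : ‖(∫ s in (2 : ℝ)..3, er (-(τ : ℝ)) s) - ∫ s in (2 : ℝ)..3, er (τ : ℝ) s‖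
      ≤ 4 / |(τ : ℝ)| := by
    refine (norm_sub_le _ _).trans ?_
    have : 4 / |(τ : ℝ)| = 2 / |(τ : ℝ)| + 2 / |(τ : ℝ)| := by ring
    rw [this]
    exact add_le_add h4 h5
  rw [div_le_div_iff₀ hpos (by positivity)]
  have h7 : 4 / |(τ : ℝ)| * (τ : ℝ) ^ 2 = 4 * |(τ : ℝ)| := by
    rw [← sq_abs]
    field_simp
  calc _ ≤ 4 / |(τ : ℝ)| * (τ : ℝ) ^ 2 := by gcongr
    _ = _ := h7

theorem wt_int_zero : ‖∫ s in (-Real.pi)..Real.pi, (Wt s : ℂ) * ch 0 s‖ ≤ 8 := by
  have h := intervalIntegral.norm_integral_le_of_norm_le_const (a := -Real.pi) (b := Real.pi)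
    (f := fun s : ℝ => (Wt s : ℂ) * ch 0 s) (C := 1) (fun s _ => by
      rw [norm_mul, kern_ch_er, kern_er_norm, mul_one, Complex.norm_real, Real.norm_eq_abs]
      have h1 : 0 ≤ Wt s := le_max_left _ _
      have h2 : Wt s ≤ 1 := max_le zero_le_one (min_le_left _ _)
      rw [abs_of_nonneg h1]
      exact h2)
  refine h.trans ?_
  have h3 := Real.pi_lt_four
  have h4 := Real.pi_pos
  rw [abs_of_pos (by linarith)]
  linarith

/-- the trivial bound for bounded `N` -/
theorem kn_triv (N : ℝ) (hN1 : 1 ≤ N) (hN : N ≤ Real.exp 9) (τ : ℤ) : ‖kn N τ‖ ≤ 13 := by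
  unfold kn
  refine (norm_sum_le _ _).trans ?_
  have h1 : ∀ n ∈ Icc 1 ⌊Real.exp 3 * N⌋₊,
      ‖((Wt (Real.log n - Real.log N) / n : ℝ) : ℂ) * ch τ (Real.log n)‖ ≤ (n : ℝ)⁻¹ := by
    intro n hn
    have hn0 : (0 : ℝ) < n := by
      have := (Finset.mem_Icc.mp hn).1
      exact_mod_cast this
    rw [norm_mul, kern_ch_er, kern_er_norm, mul_one, Complex.norm_real, Real.norm_eq_abs]
    have h1 : 0 ≤ Wt (Real.log n - Real.log N) := le_max_left _ _
    have h2 : Wt (Real.log n - Real.log N) ≤ 1 := max_le zero_le_one (min_le_left _ _)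
    rw [abs_of_nonneg (by positivity), inv_eq_one_div]
    gcongr
  refine (Finset.sum_le_sum h1).trans ?_
  have h2 := harmonic_floor_le_one_add_log (Real.exp 3 * N) (by
    have : 1 ≤ Real.exp 3 := Real.one_le_exp (by norm_num)
    nlinarith)
  have h3 : ((harmonic ⌊Real.exp 3 * N⌋₊ : ℚ) : ℝ) = ∑ n ∈ Icc 1 ⌊Real.exp 3 * N⌋₊, (n : ℝ)⁻¹ := by
    rw [harmonic_eq_sum_Icc]
    push_cast
    rfl
  rw [← h3]
  refine h2.trans ?_
  rw [Real.log_mul (Real.exp_pos _).ne' (by linarith), Real.log_exp]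
  have h4 : Real.log N ≤ 9 := by
    rw [Real.log_le_iff_le_exp (by linarith)]
    exact hN
  linarith

/-- job KERV; the hypothesis `S_SMO` is not needed -/
theorem kerv : S_KERV := by
  intro M
  obtain ⟨η, C, hη, hη1, hC, hker⟩ := kernM M
  refine ⟨C + 13 * Real.exp 9 + 13, η, by
    have := Real.exp_pos 9
    linarith, hη, hη1, ?_⟩
  intro N hN
  have hN0 : 0 < N := by linarith
  have he9 := Real.exp_pos 9
  constructor
  · rcases le_or_gt (Real.exp 9) N with h | h
    · have h1 := hker N h 0 (by simp; positivity)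
      have h2 : ‖ch 0 (Real.log N) * ∫ s in (-Real.pi)..Real.pi, (Wt s : ℂ) * ch 0 s‖ ≤ 8 := by
        rw [norm_mul, kern_ch_er, kern_er_norm, one_mul]
        exact wt_int_zero
      have h3 : N ^ (-η) ≤ 1 := Real.rpow_le_one_of_one_le_of_nonpos hN (by linarith)
      have h4 : ‖kn N 0‖ ≤ C * N ^ (-η) + 8 := by
        have h5 := norm_le_norm_sub_add (kn N 0)
          (ch 0 (Real.log N) * ∫ s in (-Real.pi)..Real.pi, (Wt s : ℂ) * ch 0 s)
        refine h5.trans (add_le_add h1 h2)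
      have h5 : C * N ^ (-η) ≤ C := by nlinarith
      linarith
    · have := kn_triv N hN h.le 0
      linarith
  · intro τ hτ0 hτ
    have hτr : (τ : ℝ) ≠ 0 := by exact_mod_cast hτ0
    have hp1 : 0 < 1 / (τ : ℝ) ^ 2 := by positivity
    have hp2 : 0 < N ^ (-η) := by positivity
    rcases le_or_gt (Real.exp 9) N with h | h
    · have h1 := hker N h τ hτ
      have h2 : ‖ch τ (Real.log N) * ∫ s in (-Real.pi)..Real.pi, (Wt s : ℂ) * ch τ s‖
          ≤ 4 / (τ : ℝ) ^ 2 := by
        rw [norm_mul, kern_ch_er, kern_er_norm, one_mul]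
        exact wt_int τ hτ0
      have h4 : ‖kn N τ‖ ≤ C * N ^ (-η) + 4 / (τ : ℝ) ^ 2 := by
        have h5 := norm_le_norm_sub_add (kn N τ)
          (ch τ (Real.log N) * ∫ s in (-Real.pi)..Real.pi, (Wt s : ℂ) * ch τ s)
        refine h5.trans (add_le_add h1 h2)
      refine h4.trans ?_
      have h6 : 4 / (τ : ℝ) ^ 2 = 4 * (1 / (τ : ℝ) ^ 2) := by ring
      rw [h6]
      nlinarith [mul_pos he9 hp1, mul_pos he9 hp2, mul_pos hC hp1]
    · have h1 := kn_triv N hN h.le τ
      have h2 : Real.exp (-9) ≤ N ^ (-η) := by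
        have h3 : (Real.exp 9) ^ (-η) ≤ N ^ (-η) :=
          Real.rpow_le_rpow_of_nonpos hN0 h.le (by linarith)
        refine le_trans ?_ h3
        rw [← Real.exp_mul]
        exact Real.exp_le_exp.mpr (by linarith)
      have h4 : 13 ≤ 13 * Real.exp 9 * N ^ (-η) := by
        have h5 : Real.exp 9 * Real.exp (-9) = 1 := by rw [← Real.exp_add]; simp
        nlinarith
      refine h1.trans (h4.trans ?_)
      nlinarith [mul_pos he9 hp1, mul_pos he9 hp2, mul_pos hC hp1, mul_pos hC hp2]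

end Pool.Agent.Q222.KS
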